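import Pool.Agent.W492.BB.Real

/-!
# Bloch-Beilinson filtrations (with `F^2` the kernel of the Abel-Jacobi map): definitions

`𝒱` is a class of smooth proper varieties over a field which is closed under products, `C` has the
formal properties of the Chow groups with rational coefficients of these varieties, `H` those of a
Weil cohomology theory with cycle class maps, and `A` those of the Abel-Jacobi maps.
-/

open CategoryTheory AlgebraicGeometry

universe u v w

namespace Pool.Agent.U644.BBL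

open Pool.Agent.H914 Pool.Agent.H914.VarClass Pool.Agent.H914.VarClass.Obj Pool.Agent.W492.BB

variable {k : Type u} [Field k] {𝒱 : VarClass k} {C : TheoryData.{u, v, 0} 𝒱 ℚ} {K : Type w}
  [Field K] (H : WeilTheoryData.{u, v, w} C K)

/-- The class `x` is a homologically trivial cycle class of codimension `i`. -/
def HomTriv {X : 𝒱.Obj} (i : ℕ) (x : C.A X) : Prop := C.Deg i x ∧ H.cl x = 0

/-- The correspondence `Γ` maps `CH^j(X)` to `CH^i(Y)`. -/
abbrev Shifts {X Y : 𝒱.Obj} (j i : ℕ) (Γ : C.A (X.prod Y)) : Prop := C.Deg (X.dim + i - j) Γ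

/-- The formal properties of the Abel-Jacobi maps: `aj X i x` is the image of the homologically
trivial class `x ∈ CH^i(X)` in the rational vector space `J X i` (the intermediate Jacobian
`J^(2i-1)(X) ⊗ ℚ`); it is linear in `x`, a correspondence `Γ` from `CH^j(X)` to `CH^i(Y)` acts on
the targets compatibly with its action on cycles, and this action is zero if `Γ` acts as zero on
`H^(2j-1)(X)`. Moreover homologically trivial classes of codimension zero are zero. (The value of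
`aj` on other classes is irrelevant.) -/
structure AbelJacobi where
  /-- the target of the Abel-Jacobi map -/
  J : 𝒱.Obj → ℕ → Type v
  [addCommGroup : ∀ X i, AddCommGroup (J X i)]
  [module : ∀ X i, Module ℚ (J X i)]
  /-- the Abel-Jacobi map -/
  aj : ∀ (X : 𝒱.Obj) (i : ℕ), C.A X → J X i
  /-- the action of correspondences on the targets -/
  map : ∀ {X Y : 𝒱.Obj} (j i : ℕ), C.A (X.prod Y) → (J X j →ₗ[ℚ] J Y i)
  aj_add : ∀ {X : 𝒱.Obj} {i : ℕ} {x y : C.A X}, HomTriv H i x → HomTriv H i y →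
    aj X i (x + y) = aj X i x + aj X i y
  aj_smul : ∀ {X : 𝒱.Obj} {i : ℕ} (q : ℚ) {x : C.A X}, HomTriv H i x →
    aj X i (q • x) = q • aj X i x
  aj_act : ∀ {X Y : 𝒱.Obj} {j i : ℕ} {Γ : C.A (X.prod Y)} {x : C.A X}, Shifts j i Γ →
    HomTriv H j x → aj Y i (C.act Γ x) = map j i Γ (aj X j x)
  map_eq_zero : ∀ {X Y : 𝒱.Obj} {j i : ℕ} {Γ : C.A (X.prod Y)}, Shifts j i Γ →
    Kills H Γ (2 * j - 1) → map j i Γ = 0
  codim_zero : ∀ {X : 𝒱.Obj} {x : C.A X}, HomTriv H 0 x → x = 0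

attribute [instance] AbelJacobi.addCommGroup AbelJacobi.module

variable {H} (A : AbelJacobi H)

/-- The class `x ∈ CH^i(X)` lies in the kernel of the Abel-Jacobi map. -/
def AbelJacobi.Ker {X : 𝒱.Obj} (i : ℕ) (x : C.A X) : Prop := HomTriv H i x ∧ A.aj X i x = 0

/-- The steps of the filtration `F` of the Chow groups of the variety `X` (`F i n` is `F^n CH^i(X)`):
it is descending, `F^0` is the whole group, `F^1` consists of the homologically trivial classes,
`F^2` is the kernel of the Abel-Jacobi map and `F^(i+1) CH^i(X) = 0`. -/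
structure Steps {X : 𝒱.Obj} (F : ℕ → ℕ → Submodule ℚ (C.A X)) : Prop where
  anti : ∀ i n : ℕ, F i (n + 1) ≤ F i n
  zero : ∀ (i : ℕ) x, x ∈ F i 0 ↔ C.Deg i x
  one : ∀ (i : ℕ) x, x ∈ F i 1 ↔ HomTriv H i x
  two : ∀ (i : ℕ) x, x ∈ F i 2 ↔ A.Ker i x
  top : ∀ (i : ℕ) x, x ∈ F i (i + 1) → x = 0

/-- The correspondences `Γ` from `X` to `Y`, of all degrees, respect the filtrations `F`, `G` of the
Chow groups of `X` and `Y`, and `Γ` maps `F^n CH^j(X)` to `G^(n+1) CH^i(Y)` if it acts as zero on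
`H^(2j-n)(X)`. -/
structure Respects (H : WeilTheoryData.{u, v, w} C K) {X Y : 𝒱.Obj}
    (F : ℕ → ℕ → Submodule ℚ (C.A X)) (G : ℕ → ℕ → Submodule ℚ (C.A Y)) : Prop where
  stable : ∀ (j i n : ℕ) (Γ : C.A (X.prod Y)), Shifts j i Γ → ∀ x ∈ F j n, C.act Γ x ∈ G i n
  shift : ∀ (j i n : ℕ) (Γ : C.A (X.prod Y)), Shifts j i Γ → Kills H Γ (2 * j - n) →
    ∀ x ∈ F j n, C.act Γ x ∈ G i (n + 1)

/-- The filtration `F` of the Chow groups of the single variety `X` (`F i n` is `F^n CH^i(X)`)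
satisfies the conditions 1-4 of a Bloch-Beilinson filtration for the variety `X` and its
self-correspondences of all degrees. -/
structure IsBBAt (X : 𝒱.Obj) (F : ℕ → ℕ → Submodule ℚ (C.A X)) : Prop where
  steps : Steps A F
  respects : Respects H F F

/-- The system `F` of filtrations of the Chow groups of all varieties (`F X i n` is `F^n CH^i(X)`)
is a Bloch-Beilinson filtration: conditions 1-4, for all varieties and all correspondences between
them. -/
structure IsBB (F : ∀ X : 𝒱.Obj, ℕ → ℕ → Submodule ℚ (C.A X)) : Prop where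
  steps : ∀ X, Steps A (F X)
  respects : ∀ X Y, Respects H (F X) (F Y)

/-- A Bloch-Beilinson filtration exists. -/
def HasBB : Prop := ∃ F, IsBB A F

/-- A filtration as in `IsBBAt` exists on the Chow groups of `X`. -/
def HasBBAt (X : 𝒱.Obj) : Prop := ∃ F, IsBBAt A X F

/-- `SelfChain A X n i z`: the class `z ∈ CH^i(X)` is obtained from a class in the kernel of the
Abel-Jacobi map of `X` by applying successively `n - 2` self-correspondences of `X`; the `r`-th of
them (`r = 2, ..., n - 1`), applied to a class in `CH^j(X)`, acts as zero on `H^(2j-r)(X)`. -/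
inductive SelfChain (X : 𝒱.Obj) : ℕ → ℕ → C.A X → Prop
  | base (j : ℕ) (z : C.A X) (hz : A.Ker j z) : SelfChain X 2 j z
  | step (r j i : ℕ) (z : C.A X) (Γ : C.A (X.prod X)) (hz : SelfChain X r j z)
      (hΓ : Shifts j i Γ) (hk : Kills H Γ (2 * j - r)) : SelfChain X (r + 1) i (C.act Γ z)

/-- All classes in `CH^i(X)`, `i ≥ 1`, which are obtained as in `SelfChain` by `i - 1` successive
self-correspondences vanish. -/
def ChainsVanish (X : 𝒱.Obj) : Prop := ∀ i z, SelfChain A X (i + 1) i z → z = 0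

/-- `Chain A n X i z`: the same with correspondences between arbitrary varieties. -/
inductive Chain : ℕ → (X : 𝒱.Obj) → ℕ → C.A X → Prop
  | base (X : 𝒱.Obj) (j : ℕ) (z : C.A X) (hz : A.Ker j z) : Chain 2 X j z
  | step (r : ℕ) (Z X : 𝒱.Obj) (j i : ℕ) (z : C.A Z) (Γ : C.A (Z.prod X)) (hz : Chain r Z j z)
      (hΓ : Shifts j i Γ) (hk : Kills H Γ (2 * j - r)) : Chain (r + 1) X i (C.act Γ z)

/-- `Link H n X i m Y j φ`: the operator `φ : CH^i(X) → CH^j(Y)` is a composition of a correspondence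
and `m - n` correspondences between arbitrary varieties; the `r`-th of the latter
(`r = n, ..., m - 1`), applied to a class in `CH^l(Z)`, acts as zero on `H^(2l-r)(Z)`. -/
inductive Link (H : WeilTheoryData.{u, v, w} C K) (n : ℕ) (X : 𝒱.Obj) (i : ℕ) :
    ℕ → (Y : 𝒱.Obj) → ℕ → (C.A X →ₗ[ℚ] C.A Y) → Prop
  | base (Y : 𝒱.Obj) (j : ℕ) (Γ : C.A (X.prod Y)) (hΓ : Shifts i j Γ) :
      Link H n X i n Y j (C.actL Γ)
  | step (m : ℕ) (Y Z : 𝒱.Obj) (j l : ℕ) (φ : C.A X →ₗ[ℚ] C.A Y) (Δ : C.A (Y.prod Z))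
      (hφ : Link H n X i m Y j φ) (hΔ : Shifts j l Δ) (hk : Kills H Δ (2 * j - m)) :
      Link H n X i (m + 1) Z l (C.actL Δ ∘ₗ φ)

/-- The smallest candidate for a Bloch-Beilinson filtration: from the second step on, `F^n CH^i(X)`
is spanned by the classes obtained from classes in the kernels of the Abel-Jacobi maps by `n - 2`
correspondences as in `Chain`. -/
def InSmall (X : 𝒱.Obj) (i n : ℕ) (x : C.A X) : Prop :=
  C.Deg i x ∧ (1 ≤ n → H.cl x = 0) ∧
    (2 ≤ n → x ∈ Submodule.span ℚ {z : C.A X | Chain A n X i z})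

/-- The largest candidate for a Bloch-Beilinson filtration: from the second step on, `F^n CH^i(X)`
consists of the classes in the kernel of the Abel-Jacobi map which are killed by all operators
`φ : CH^i(X) → CH^j(Y)` as in `Link H n X i m Y j φ` with `m > j`. -/
def InLarge (X : 𝒱.Obj) (i n : ℕ) (x : C.A X) : Prop :=
  C.Deg i x ∧ (1 ≤ n → H.cl x = 0) ∧
    (2 ≤ n → A.aj X i x = 0 ∧ ∀ (m : ℕ) (Y : 𝒱.Obj) (j : ℕ) (φ : C.A X →ₗ[ℚ] C.A Y),
      Link H n X i m Y j φ → j < m → φ x = 0)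

lemma homTriv_zero (X : 𝒱.Obj) (i : ℕ) : HomTriv H i (0 : C.A X) :=
  ⟨Submodule.zero_mem _, map_zero _⟩

lemma homTriv_add {X : 𝒱.Obj} {i : ℕ} {x y : C.A X} (hx : HomTriv H i x) (hy : HomTriv H i y) :
    HomTriv H i (x + y) :=
  ⟨Submodule.add_mem _ hx.1 hy.1, by rw [map_add, hx.2, hy.2, add_zero]⟩

lemma cl_smul_zero {X : 𝒱.Obj} (q : ℚ) {x : C.A X} (hx : H.cl x = 0) : H.cl (q • x) = 0 := by
  rw [Algebra.smul_def, map_mul, hx, mul_zero]

lemma homTriv_smul {X : 𝒱.Obj} {i : ℕ} (q : ℚ) {x : C.A X} (hx : HomTriv H i x) :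
    HomTriv H i (q • x) :=
  ⟨Submodule.smul_mem _ _ hx.1, cl_smul_zero q hx.2⟩

lemma aj_zero (X : 𝒱.Obj) (i : ℕ) : A.aj X i 0 = 0 := by
  have h := A.aj_smul (X := X) (i := i) 0 (homTriv_zero X i)
  rwa [zero_smul, zero_smul] at h

lemma ker_zero (X : 𝒱.Obj) (i : ℕ) : A.Ker i (0 : C.A X) := ⟨homTriv_zero X i, aj_zero A X i⟩

lemma ker_add {X : 𝒱.Obj} {i : ℕ} {x y : C.A X} (hx : A.Ker i x) (hy : A.Ker i y) :
    A.Ker i (x + y) :=
  ⟨homTriv_add hx.1 hy.1, by rw [A.aj_add hx.1 hy.1, hx.2, hy.2, add_zero]⟩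

lemma ker_smul {X : 𝒱.Obj} {i : ℕ} (q : ℚ) {x : C.A X} (hx : A.Ker i x) : A.Ker i (q • x) :=
  ⟨homTriv_smul q hx.1, by rw [A.aj_smul q hx.1, hx.2, smul_zero]⟩

/-- The smallest candidate as a family of subspaces. -/
def small (X : 𝒱.Obj) (i n : ℕ) : Submodule ℚ (C.A X) where
  carrier := {x | InSmall A X i n x}
  zero_mem' := ⟨Submodule.zero_mem _, fun _ => map_zero _, fun _ => Submodule.zero_mem _⟩
  add_mem' := by
    rintro x y ⟨h1, h2, h3⟩ ⟨h4, h5, h6⟩
    exact ⟨Submodule.add_mem _ h1 h4, fun h => by rw [map_add, h2 h, h5 h, add_zero],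
      fun h => Submodule.add_mem _ (h3 h) (h6 h)⟩
  smul_mem' := by
    rintro q x ⟨h1, h2, h3⟩
    exact ⟨Submodule.smul_mem _ _ h1, fun h => cl_smul_zero q (h2 h),
      fun h => Submodule.smul_mem _ _ (h3 h)⟩

/-- The largest candidate as a family of subspaces. -/
def large (X : 𝒱.Obj) (i n : ℕ) : Submodule ℚ (C.A X) where
  carrier := {x | InLarge A X i n x}
  zero_mem' := ⟨Submodule.zero_mem _, fun _ => map_zero _, fun _ => ⟨aj_zero A X i,
    fun _ _ _ _ _ _ => map_zero _⟩⟩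
  add_mem' := by
    rintro x y ⟨h1, h2, h3⟩ ⟨h4, h5, h6⟩
    refine ⟨Submodule.add_mem _ h1 h4, fun h => by rw [map_add, h2 h, h5 h, add_zero],
      fun h => ⟨(ker_add A ⟨⟨h1, h2 (by omega)⟩, (h3 h).1⟩ ⟨⟨h4, h5 (by omega)⟩, (h6 h).1⟩).2,
      fun m Y j φ hφ hj => by rw [map_add, (h3 h).2 m Y j φ hφ hj, (h6 h).2 m Y j φ hφ hj,
        add_zero]⟩⟩
  smul_mem' := by
    rintro q x ⟨h1, h2, h3⟩
    exact ⟨Submodule.smul_mem _ _ h1, fun h => cl_smul_zero q (h2 h),
      fun h => ⟨(ker_smul A q ⟨⟨h1, h2 (by omega)⟩, (h3 h).1⟩).2,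
      fun m Y j φ hφ hj => by rw [map_smul, (h3 h).2 m Y j φ hφ hj, smul_zero]⟩⟩

/-- `F` is a Bloch-Beilinson filtration and contained in all others. -/
structure IsLeastBB (F : ∀ X : 𝒱.Obj, ℕ → ℕ → Submodule ℚ (C.A X)) : Prop where
  isBB : IsBB A F
  le : ∀ G, IsBB A G → ∀ X i n, F X i n ≤ G X i n

/-- `F` is a Bloch-Beilinson filtration and contains all others. -/
structure IsGreatestBB (F : ∀ X : 𝒱.Obj, ℕ → ℕ → Submodule ℚ (C.A X)) : Prop where
  isBB : IsBB A F
  ge : ∀ G, IsBB A G → ∀ X i n, G X i n ≤ F X i n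

/-- `Y` dominates `X`: there is a morphism `f : Y ⟶ X` and a class `u` on `Y` with `f_* u = 1` (for
instance, `f` is surjective and `u` is a multiple of the class of a multisection). -/
def Dominates (C : TheoryData.{u, v, 0} 𝒱 ℚ) (Y X : 𝒱.Obj) : Prop :=
  ∃ (f : Y ⟶ X) (u : C.A Y), C.Deg (Y.dim - X.dim) u ∧ C.down f u = 1

end Pool.Agent.U644.BBL
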