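import Pool.Agent.U644.BBL.Main

/-!
# The smallest and the largest Bloch-Beilinson filtration
-/

open CategoryTheory AlgebraicGeometry

universe u v w

namespace Pool.Agent.U644.BBL

open Pool.Agent.H914 Pool.Agent.H914.VarClass Pool.Agent.H914.VarClass.Obj Pool.Agent.W492.BB

variable {k : Type u} [Field k] {𝒱 : VarClass k} {C : TheoryData.{u, v, 0} 𝒱 ℚ} {K : Type w}
  [Field K] {H : WeilTheoryData.{u, v, w} C K} [hC : IsChow C] [hH : IsWeil H]
  {A : AbelJacobi H} {X Y Z W : 𝒱.Obj}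

section small

lemma span_ker {i n : ℕ} {x : C.A X} (h : x ∈ Submodule.span ℚ {z : C.A X | Chain A n X i z}) :
    A.Ker i x := by
  induction h using Submodule.span_induction with
  | mem z hz => exact hz.ker
  | zero => exact ker_zero A X i
  | add x y _ _ hx hy => exact ker_add A hx hy
  | smul q x _ hx => exact ker_smul A q hx

theorem isBB_small (hv : AllVanish A) : IsBB A (small A) := by
  refine ⟨fun X => ⟨?_, ?_, ?_, ?_, ?_⟩, fun X Y => ⟨?_, ?_⟩⟩
  · rintro i n x ⟨h1, h2, h3⟩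
    refine ⟨h1, fun h => h2 (by omega), fun h => ?_⟩
    exact Submodule.span_mono (fun z hz => Chain.anti hz h) (h3 (by omega))
  · intro i x
    exact ⟨fun h => h.1, fun h => ⟨h, fun h => by omega, fun h => by omega⟩⟩
  · intro i x
    exact ⟨fun h => ⟨h.1, h.2.1 le_rfl⟩, fun h => ⟨h.1, fun _ => h.2, fun h => by omega⟩⟩
  · intro i x
    exact ⟨fun h => span_ker (h.2.2 le_rfl), fun h => ⟨h.1.1, fun _ => h.1.2, fun _ =>
      Submodule.subset_span (Chain.base X i x h)⟩⟩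
  · rintro i x ⟨h1, h2, h3⟩
    rcases Nat.eq_zero_or_pos i with rfl | hi
    · exact A.codim_zero ⟨h1, h2 le_rfl⟩
    · have h4 := h3 (by omega)
      rw [show {z : C.A X | Chain A (i + 1) X i z} = {z : C.A X | Chain A (i + 1) X i z ∧ z = 0}
        from Set.ext fun z => ⟨fun hz => ⟨hz, hv X i z hz⟩, fun hz => hz.1⟩] at h4
      have h5 : Submodule.span ℚ {z : C.A X | Chain A (i + 1) X i z ∧ z = 0} ≤ ⊥ := by
        rw [Submodule.span_le]
        rintro z ⟨-, rfl⟩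
        exact Submodule.zero_mem _
      exact (Submodule.mem_bot ℚ).1 (h5 h4)
  · rintro j i n Γ hΓ x ⟨h1, h2, h3⟩
    refine ⟨act_deg hΓ h1, fun h => (homTriv_act hΓ ⟨h1, h2 h⟩).2, fun h => ?_⟩
    have h4 := h3 h
    induction h4 using Submodule.span_induction with
    | mem z hz => exact Submodule.subset_span (hz.stable hΓ)
    | zero => rw [C.act_map_zero]; exact Submodule.zero_mem _
    | add x y hx hy ihx ihy =>
      rw [← C.actL_apply, map_add, C.actL_apply, C.actL_apply]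
      exact Submodule.add_mem _ (ihx (span_ker hx).1.1 (fun _ => (span_ker hx).1.2) fun _ => hx)
        (ihy (span_ker hy).1.1 (fun _ => (span_ker hy).1.2) fun _ => hy)
    | smul q x hx ihx =>
      rw [← C.actL_apply, map_smul, C.actL_apply]
      exact Submodule.smul_mem _ _ (ihx (span_ker hx).1.1 (fun _ => (span_ker hx).1.2) fun _ => hx)
  · rintro j i n Γ hΓ hk x ⟨h1, h2, h3⟩
    rcases n with _ | _ | n
    · have h4 : HomTriv H i (C.act Γ x) := homTriv_act_of_kills hΓ (by simpa using hk) h1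
      exact ⟨h4.1, fun _ => h4.2, fun h => by omega⟩
    · have h4 : A.Ker i (C.act Γ x) := ker_act_of_kills A hΓ (by simpa using hk) ⟨h1, h2 (by omega)⟩
      exact ⟨h4.1.1, fun _ => h4.1.2, fun _ => Submodule.subset_span (Chain.base Y i _ h4)⟩
    · have h4 := h3 (by omega)
      have h5 : C.act Γ x ∈ Submodule.span ℚ {z : C.A Y | Chain A (n + 1 + 1 + 1) Y i z} := by
        clear h1 h2 h3
        induction h4 using Submodule.span_induction with
        | mem z hz => exact Submodule.subset_span (Chain.step _ X Y j i z Γ hz hΓ hk)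
        | zero => rw [C.act_map_zero]; exact Submodule.zero_mem _
        | add x y hx hy ihx ihy =>
          rw [← C.actL_apply, map_add, C.actL_apply, C.actL_apply]
          exact Submodule.add_mem _ ihx ihy
        | smul q x hx ihx =>
          rw [← C.actL_apply, map_smul, C.actL_apply]
          exact Submodule.smul_mem _ _ ihx
      have h6 := span_ker h5
      exact ⟨h6.1.1, fun _ => h6.1.2, fun _ => h5⟩

end small

section large

lemma Link.precomp {n i i' m j : ℕ} {φ : C.A X →ₗ[ℚ] C.A Y} (h : Link H n X i m Y j φ)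
    {Γ : C.A (W.prod X)} (hΓ : Shifts i' i Γ) : Link H n W i' m Y j (φ ∘ₗ C.actL Γ) := by
  induction h with
  | base Y j Δ hΔ => rw [actL_comp]; exact Link.base Y j _ (shifts_comp hΓ hΔ)
  | step m Y Z j l φ Δ hφ hΔ hk ih =>
    rw [LinearMap.comp_assoc]
    exact Link.step m Y Z j l _ Δ ih hΔ hk

lemma Link.precomp_kills {n i i' m j : ℕ} {φ : C.A X →ₗ[ℚ] C.A Y}
    (h : Link H (n + 1) X i m Y j φ) {Γ : C.A (W.prod X)} (hΓ : Shifts i' i Γ)
    (hk : Kills H Γ (2 * i' - n)) : Link H n W i' m Y j (φ ∘ₗ C.actL Γ) := by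
  induction h with
  | base Y j Δ hΔ =>
    obtain ⟨δ, hδ, hδ1⟩ := exists_diag (C := C) W
    rw [actL_comp, ← LinearMap.comp_id (C.actL (C.comp Γ Δ)), ← hδ1]
    exact Link.step n W Y i' j _ _ (Link.base W i' δ (hδ i')) (shifts_comp hΓ hΔ)
      (kills_comp_left Δ hk)
  | step m Y Z j l φ Δ hφ hΔ hk' ih =>
    rw [LinearMap.comp_assoc]
    exact Link.step m Y Z j l _ Δ ih hΔ hk'

lemma Link.up {n i m j : ℕ} {φ : C.A X →ₗ[ℚ] C.A Y} (h : Link H n X i m Y j φ) :
    (m = n ∧ ∃ Γ, Shifts i j Γ ∧ φ = C.actL Γ) ∨ Link H (n + 1) X i m Y j φ := by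
  induction h with
  | base Y j Γ hΓ => exact Or.inl ⟨rfl, Γ, hΓ, rfl⟩
  | step m Y Z j l φ Δ hφ hΔ hk ih =>
    right
    rcases ih with ⟨rfl, Γ, hΓ, rfl⟩ | ih
    · rw [actL_comp]
      exact Link.base Z l _ (shifts_comp hΓ hΔ)
    · exact Link.step m Y Z j l _ Δ ih hΔ hk

lemma Link.chain {i m j : ℕ} {φ : C.A X →ₗ[ℚ] C.A Y} (h : Link H 2 X i m Y j φ) {x : C.A X}
    (hx : A.Ker i x) : Chain A m Y j (φ x) := by
  induction h with
  | base Y j Γ hΓ => exact Chain.base Y j _ (ker_act hΓ hx)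
  | step m Y Z j l φ Δ hφ hΔ hk ih => exact Chain.step m Y Z j l _ Δ ih hΔ hk

lemma inLarge_two (hv : AllVanish A) {i : ℕ} {x : C.A X} (hx : A.Ker i x) : InLarge A X i 2 x :=
  ⟨hx.1.1, fun _ => hx.1.2, fun _ => ⟨hx.2, fun m Y j φ hφ hj => (hφ.chain hx).eq_zero hv hj⟩⟩

theorem isBB_large (hv : AllVanish A) : IsBB A (large A) := by
  refine ⟨fun X => ⟨?_, ?_, ?_, ?_, ?_⟩, fun X Y => ⟨?_, ?_⟩⟩
  · rintro i n x ⟨h1, h2, h3⟩
    refine ⟨h1, fun h => h2 (by omega), fun h => ⟨(h3 (by omega)).1, fun m Y j φ hφ hj => ?_⟩⟩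
    rcases hφ.up with ⟨rfl, Γ, hΓ, rfl⟩ | hφ'
    · exact (h3 (by omega)).2 (m + 1) Y j _ (Link.base Y j Γ hΓ) (by omega)
    · exact (h3 (by omega)).2 m Y j φ hφ' hj
  · intro i x
    exact ⟨fun h => h.1, fun h => ⟨h, fun h => by omega, fun h => by omega⟩⟩
  · intro i x
    exact ⟨fun h => ⟨h.1, h.2.1 le_rfl⟩, fun h => ⟨h.1, fun _ => h.2, fun h => by omega⟩⟩
  · intro i x
    exact ⟨fun h => ⟨⟨h.1, h.2.1 (by omega)⟩, (h.2.2 le_rfl).1⟩, fun h => inLarge_two hv h⟩
  · rintro i x ⟨h1, h2, h3⟩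
    rcases Nat.eq_zero_or_pos i with rfl | hi
    · exact A.codim_zero ⟨h1, h2 le_rfl⟩
    · obtain ⟨δ, hδ, hδ1⟩ := exists_diag (C := C) X
      have h4 := (h3 (by omega)).2 (i + 1) X i _ (Link.base X i δ (hδ i)) (by omega)
      rwa [hδ1, LinearMap.id_apply] at h4
  · rintro j i n Γ hΓ x ⟨h1, h2, h3⟩
    exact ⟨act_deg hΓ h1, fun h => (homTriv_act hΓ ⟨h1, h2 h⟩).2, fun h =>
      ⟨(ker_act (A := A) hΓ ⟨⟨h1, h2 (by omega)⟩, (h3 h).1⟩).2, fun m Z l φ hφ hl =>
        (h3 h).2 m Z l _ (hφ.precomp hΓ) hl⟩⟩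
  · rintro j i n Γ hΓ hk x ⟨h1, h2, h3⟩
    rcases n with _ | _ | n
    · have h4 : HomTriv H i (C.act Γ x) := homTriv_act_of_kills hΓ (by simpa using hk) h1
      exact ⟨h4.1, fun _ => h4.2, fun h => by omega⟩
    · exact inLarge_two hv (ker_act_of_kills A hΓ (by simpa using hk) ⟨h1, h2 (by omega)⟩)
    · exact ⟨act_deg hΓ h1, fun h => (homTriv_act hΓ ⟨h1, h2 (by omega)⟩).2, fun h =>
        ⟨(ker_act (A := A) hΓ ⟨⟨h1, h2 (by omega)⟩, (h3 (by omega)).1⟩).2, fun m Z l φ hφ hl =>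
          (h3 (by omega)).2 m Z l _ (hφ.precomp_kills hΓ hk) hl⟩⟩

end large

section univ

variable {F : ∀ X : 𝒱.Obj, ℕ → ℕ → Submodule ℚ (C.A X)}

omit hC hH in
lemma IsBB.le (hF : IsBB A F) {i m n : ℕ} (h : m ≤ n) : F X i n ≤ F X i m := by
  induction n, h using Nat.le_induction with
  | base => exact le_rfl
  | succ n _ ih => exact ((hF.steps X).anti i n).trans ih

omit hC hH in
lemma IsBB.chain_mem (hF : IsBB A F) {n i : ℕ} {z : C.A X} (h : Chain A n X i z) :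
    z ∈ F X i n := by
  induction h with
  | base X j z hz => exact ((hF.steps X).two j z).2 hz
  | step r Z X j i z Γ hz hΓ hk ih => exact (hF.respects Z X).shift j i r Γ hΓ hk z ih

omit hC hH in
lemma IsBB.link_mem (hF : IsBB A F) {n i m j : ℕ} {φ : C.A X →ₗ[ℚ] C.A Y}
    (h : Link H n X i m Y j φ) {x : C.A X} (hx : x ∈ F X i n) : φ x ∈ F Y j m := by
  induction h with
  | base Y j Γ hΓ => exact (hF.respects X Y).stable i j n Γ hΓ x hx
  | step m Y Z j l φ Δ hφ hΔ hk ih => exact (hF.respects Y Z).shift j l m Δ hΔ hk _ ih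

omit hC hH in
theorem IsBB.small_le (hF : IsBB A F) (X : 𝒱.Obj) (i n : ℕ) : small A X i n ≤ F X i n := by
  rintro x ⟨h1, h2, h3⟩
  rcases n with _ | _ | n
  · exact ((hF.steps X).zero i x).2 h1
  · exact ((hF.steps X).one i x).2 ⟨h1, h2 (by omega)⟩
  · have h4 : Submodule.span ℚ {z : C.A X | Chain A (n + 1 + 1) X i z} ≤ F X i (n + 1 + 1) := by
      rw [Submodule.span_le]
      intro z hz
      exact hF.chain_mem hz
    exact h4 (h3 (by omega))

omit hC hH in
theorem IsBB.le_large (hF : IsBB A F) (X : 𝒱.Obj) (i n : ℕ) : F X i n ≤ large A X i n := by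
  intro x hx
  refine ⟨((hF.steps X).zero i x).1 (hF.le (Nat.zero_le n) hx), fun h => (((hF.steps X).one i x).1 (hF.le h hx)).2,
    fun h => ⟨(((hF.steps X).two i x).1 (hF.le h hx)).2, fun m Y j φ hφ hj => ?_⟩⟩
  exact (hF.steps Y).top j _ (hF.le (by omega) (hF.link_mem hφ hx))

omit hC hH in
lemma IsBB.at (hF : IsBB A F) (X : 𝒱.Obj) : IsBBAt A X (F X) :=
  ⟨hF.steps X, hF.respects X X⟩

omit hC hH in
lemma IsBBAt.chainsVanish {X : 𝒱.Obj} {F : ℕ → ℕ → Submodule ℚ (C.A X)} (hF : IsBBAt A X F) :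
    ChainsVanish A X := by
  have h : ∀ n i z, SelfChain A X n i z → z ∈ F i n := by
    intro n i z hz
    induction hz with
    | base j z hz => exact (hF.steps.two j z).2 hz
    | step r j i z Γ hz hΓ hk ih => exact hF.respects.shift j i r Γ hΓ hk z ih
  exact fun i z hz => hF.steps.top i z (h _ _ _ hz)

end univ

variable (A)

/-- A Bloch-Beilinson filtration exists if and only if it exists for each single variety of a
dominating class, and if and only if the chains of self-correspondences of these varieties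
vanish. -/
theorem hasBB_iff (S : Set 𝒱.Obj) (hS : ∀ X, ∃ Y ∈ S, Dominates C Y X) :
    (HasBB A ↔ ∀ Y ∈ S, HasBBAt A Y) ∧ (HasBB A ↔ ∀ Y ∈ S, ChainsVanish A Y) := by
  have h1 : (∀ Y ∈ S, ChainsVanish A Y) → HasBB A := fun h =>
    ⟨small A, isBB_small (allVanish_of A S hS h)⟩
  have h2 : (∀ Y ∈ S, HasBBAt A Y) → ∀ Y ∈ S, ChainsVanish A Y := fun h Y hY => by
    obtain ⟨F, hF⟩ := h Y hY
    exact hF.chainsVanish
  have h3 : HasBB A → ∀ Y ∈ S, HasBBAt A Y := fun ⟨F, hF⟩ Y _ => ⟨F Y, hF.at Y⟩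
  exact ⟨⟨h3, fun h => h1 (h2 h)⟩, ⟨fun h => h2 (h3 h), h1⟩⟩

/-- If there is a Bloch-Beilinson filtration then there are a smallest and a largest one. -/
theorem extremal (h : HasBB A) : IsBB A (small A) ∧ IsBB A (large A) ∧
    ∀ F, IsBB A F → ∀ X i n, small A X i n ≤ F X i n ∧ F X i n ≤ large A X i n := by
  have h1 : ∀ X : 𝒱.Obj, ∃ Y ∈ Set.univ, Dominates C Y X := fun X =>
    ⟨X, Set.mem_univ _, 𝟙 X, 1, by rw [sub_self]; exact C.one_mem X, C.push_id 1⟩
  have h2 : AllVanish A := allVanish_of A _ h1 ((hasBB_iff A _ h1).2.1 h)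
  exact ⟨isBB_small h2, isBB_large h2, fun F hF X i n => ⟨hF.small_le X i n, hF.le_large X i n⟩⟩

/-- The equivalences. -/
theorem tfae (S : Set 𝒱.Obj) (hS : ∀ X, ∃ Y ∈ S, Dominates C Y X) :
    List.TFAE [HasBB A, IsLeastBB A (small A), IsGreatestBB A (large A), ∀ Y ∈ S, HasBBAt A Y,
      ∀ Y ∈ S, ChainsVanish A Y] := by
  tfae_have 1 → 2 := fun h => ⟨(extremal A h).1, fun G hG X i n => hG.small_le X i n⟩
  tfae_have 2 → 1 := fun h => ⟨_, h.isBB⟩
  tfae_have 1 → 3 := fun h => ⟨(extremal A h).2.1, fun G hG X i n => hG.le_large X i n⟩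
  tfae_have 3 → 1 := fun h => ⟨_, h.isBB⟩
  tfae_have 1 ↔ 4 := (hasBB_iff A S hS).1
  tfae_have 1 ↔ 5 := (hasBB_iff A S hS).2
  tfae_finish

end Pool.Agent.U644.BBL
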