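import Pool.Agent.U644.BBL.Defs

/-!
# Bloch-Beilinson filtrations: local-global principle and extremal filtrations
-/

open CategoryTheory AlgebraicGeometry

universe u v w

namespace Pool.Agent.U644.BBL

open Pool.Agent.H914 Pool.Agent.H914.VarClass Pool.Agent.H914.VarClass.Obj Pool.Agent.W492.BB

variable {k : Type u} [Field k] {𝒱 : VarClass k} {C : TheoryData.{u, v, 0} 𝒱 ℚ} {K : Type w}
  [Field K] {H : WeilTheoryData.{u, v, w} C K} [hC : IsChow C] [hH : IsWeil H]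
  (A : AbelJacobi H) {X Y Z W : 𝒱.Obj}

section basic

lemma shifts_iff {j i : ℕ} {Γ : C.A (X.prod Y)} :
    Shifts j i Γ ↔ Γ ∈ C.gr (X.prod Y) (X.dim + ((i : ℤ) - j)) := by
  unfold Shifts TheoryData.Deg
  rw [show (X.dim : ℤ) + ((i : ℤ) - j) = X.dim + i - j by ring]

lemma act_deg {j i : ℕ} {Γ : C.A (X.prod Y)} (hΓ : Shifts j i Γ) {x : C.A X}
    (hx : C.Deg j x) : C.Deg i (C.act Γ x) := by
  have h := act_mem (shifts_iff.1 hΓ) hx
  rwa [show (j : ℤ) + ((i : ℤ) - j) = i by ring] at h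

lemma homTriv_act {j i : ℕ} {Γ : C.A (X.prod Y)} (hΓ : Shifts j i Γ) {x : C.A X}
    (hx : HomTriv H j x) : HomTriv H i (C.act Γ x) := by
  refine ⟨act_deg hΓ hx.1, ?_⟩
  rw [cl_act, hx.2, H.act_map_zero]

lemma homTriv_act_of_kills {j i : ℕ} {Γ : C.A (X.prod Y)} (hΓ : Shifts j i Γ)
    (hk : Kills H Γ (2 * j)) {x : C.A X} (hx : C.Deg j x) : HomTriv H i (C.act Γ x) := by
  refine ⟨act_deg hΓ hx, ?_⟩
  rw [cl_act]
  exact hk _ (H.cl_mem hx)

variable {A} in
lemma ker_act {j i : ℕ} {Γ : C.A (X.prod Y)} (hΓ : Shifts j i Γ) {x : C.A X}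
    (hx : A.Ker j x) : A.Ker i (C.act Γ x) :=
  ⟨homTriv_act hΓ hx.1, by rw [A.aj_act hΓ hx.1, hx.2, map_zero]⟩

lemma ker_act_of_kills {j i : ℕ} {Γ : C.A (X.prod Y)} (hΓ : Shifts j i Γ)
    (hk : Kills H Γ (2 * j - 1)) {x : C.A X} (hx : HomTriv H j x) : A.Ker i (C.act Γ x) :=
  ⟨homTriv_act hΓ hx, by rw [A.aj_act hΓ hx, A.map_eq_zero hΓ hk, LinearMap.zero_apply]⟩

lemma cl_comp (Γ : C.A (X.prod Y)) (Δ : C.A (Y.prod Z)) :
    H.cl (C.comp Γ Δ) = H.comp (H.cl Γ) (H.cl Δ) := by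
  rw [TheoryData.comp, TheoryData.comp, H.cl_push, map_mul, H.cl_pull, H.cl_pull]

lemma actH_comp (Γ : C.A (X.prod Y)) (Δ : C.A (Y.prod Z)) (a : H.A X) :
    H.act (H.cl (C.comp Γ Δ)) a = H.act (H.cl Δ) (H.act (H.cl Γ) a) := by
  rw [cl_comp, H.act_comp]

lemma kills_comp_left {Γ : C.A (X.prod Y)} (Δ : C.A (Y.prod Z)) {m : ℤ} (h : Kills H Γ m) :
    Kills H (C.comp Γ Δ) m := by
  intro a ha
  rw [actH_comp, h a ha, H.act_map_zero]

lemma kills_comp_right {j l : ℕ} {Γ : C.A (X.prod Y)} (hΓ : Shifts j l Γ) {Δ : C.A (Y.prod Z)}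
    {r : ℕ} (h : Kills H Δ (2 * l - r)) : Kills H (C.comp Γ Δ) (2 * j - r) := by
  intro a ha
  rw [actH_comp]
  apply h
  have h1 := actH_mem (H := H) (shifts_iff.1 hΓ) ha
  rwa [show (2 * (j : ℤ) - r + 2 * ((l : ℤ) - j)) = 2 * l - r by ring] at h1

lemma shifts_comp {j l i : ℕ} {Γ : C.A (X.prod Y)} (hΓ : Shifts j l Γ) {Δ : C.A (Y.prod Z)}
    (hΔ : Shifts l i Δ) : Shifts j i (C.comp Γ Δ) := by
  have h := C.push_mem (t13 X Y Z) (C.mul_mem (C.pull_mem (t23 X Y Z) hΔ)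
    (C.pull_mem (fst (X.prod Y) Z) hΓ))
  unfold Shifts TheoryData.Deg
  have e1 : (Y.dim : ℤ) + i - l + ((X.dim : ℤ) + l - j) +
      1 * (((X.prod Z).dim : ℤ) - (((X.prod Y).prod Z).dim : ℤ)) = X.dim + i - j := by
    rw [dim_prod, dim_prod, dim_prod]; push_cast; ring
  rwa [e1] at h

lemma actL_comp (Γ : C.A (X.prod Y)) (Δ : C.A (Y.prod Z)) :
    C.actL Δ ∘ₗ C.actL Γ = C.actL (C.comp Γ Δ) := by
  ext x
  exact (C.act_comp Γ Δ x).symm

/-- the diagonal correspondence -/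
lemma exists_diag (X : 𝒱.Obj) : ∃ δ : C.A (X.prod X), (∀ i, Shifts i i δ) ∧ C.actL δ = LinearMap.id := by
  refine ⟨C.mulCorr 1, fun i => ?_, ?_⟩
  · have h := C.push_mem (Obj.lift (𝟙 X) (𝟙 X)) (C.one_mem X)
    unfold Shifts TheoryData.Deg
    have e1 : (0 : ℤ) + 1 * (((X.prod X).dim : ℤ) - (X.dim : ℤ)) = X.dim + i - i := by
      rw [dim_prod]; push_cast; ring
    rwa [e1] at h
  · ext x
    change C.act (C.mulCorr 1) x = x
    rw [C.act_mulCorr, one_mul]

end basic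

section chains

variable {A}

lemma Chain.ker {n i : ℕ} {z : C.A X} (h : Chain A n X i z) : A.Ker i z := by
  induction h with
  | base X j z hz => exact hz
  | step r Z X j i z Γ hz hΓ hk ih => exact ker_act hΓ ih

lemma Chain.stable {n j i : ℕ} {z : C.A X} (h : Chain A n X j z) {Γ : C.A (X.prod Y)}
    (hΓ : Shifts j i Γ) : Chain A n Y i (C.act Γ z) := by
  cases h with
  | base _ _ _ hz => exact Chain.base Y i _ (ker_act hΓ hz)
  | step r Z' _ j' _ z' Γ' hz hΓ' hk =>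
    rw [← C.act_comp]
    exact Chain.step r Z' Y j' i z' _ hz (shifts_comp hΓ' hΓ) (kills_comp_left Γ hk)

lemma Chain.anti {n i : ℕ} {z : C.A X} (h : Chain A (n + 1) X i z) (hn : 2 ≤ n) :
    Chain A n X i z := by
  cases h with
  | base _ _ _ hz => omega
  | step r Z' _ j' _ z' Γ' hz hΓ' hk => exact hz.stable hΓ'

variable (A) in
/-- all chains vanish -/
def AllVanish : Prop := ∀ (X : 𝒱.Obj) (i : ℕ) (z : C.A X), Chain A (i + 1) X i z → z = 0

lemma Chain.eq_zero (hv : AllVanish A) {m j : ℕ} {z : C.A X} (h : Chain A m X j z) (hj : j < m) :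
    z = 0 := by
  rcases Nat.eq_zero_or_pos j with rfl | hj0
  · exact A.codim_zero h.ker.1
  · obtain ⟨t, rfl⟩ : ∃ t, m = j + 1 + t := ⟨m - (j + 1), by omega⟩
    induction t with
    | zero => exact hv X j z h
    | succ t ih => exact ih (Chain.anti (n := j + 1 + t) h (by omega)) (by omega)

/-- a dominating map lifts chains of self-correspondences -/
lemma SelfChain.lift {f : W ⟶ X} {v : C.A W} (hv : C.Deg (W.dim - X.dim) v)
    (hv1 : C.down f v = 1) {n i : ℕ} {z : C.A X} (h : SelfChain A X n i z) :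
    SelfChain A W n i (C.pull f z) := by
  obtain ⟨γ, hγ, hγ1, -⟩ := Realised.pull (H := H) f
  induction h with
  | base j z hz =>
    refine SelfChain.base j _ ?_
    rw [← hγ1]
    refine ker_act ?_ hz
    rw [shifts_iff]
    rwa [show ((j : ℤ) - j) = 0 by ring]
  | step r j i z Γ hz hΓ hk ih =>
    obtain ⟨Γ', hΓ', h1, h2⟩ := (((Realised.mul (H := H) hv).comp (Realised.push f)).comp
      (Realised.of (H := H) (shifts_iff.1 hΓ))).comp (Realised.pull f)
    have e1 : C.act Γ' (C.pull f z) = C.pull f (C.act Γ z) := by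
      rw [h1]
      beta_reduce
      rw [C.proj_right]
      change C.pull f (C.act Γ (C.down f v * z)) = _
      rw [hv1, one_mul]
    rw [← e1]
    refine SelfChain.step r j i _ Γ' ih ?_ ?_
    · rw [shifts_iff]
      rwa [show ((W.dim : ℤ) - X.dim + (X.dim - W.dim) + ((i : ℤ) - j) + 0) = (i : ℤ) - j by ring]
        at hΓ'
    · intro a ha
      rw [h2]
      beta_reduce
      rw [hk, map_zero]
      have h3 := H.push_mem f (H.mul_mem (H.cl_mem hv) ha)
      rwa [show (2 * ((W.dim : ℤ) - X.dim) + (2 * (j : ℤ) - r) + 2 * ((X.dim : ℤ) - W.dim)) =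
        2 * j - r by ring] at h3

/-- every chain embeds in a chain of self-correspondences of one variety -/
lemma Chain.embed {n i : ℕ} {z : C.A X} (h : Chain A n X i z) :
    ∃ (W : 𝒱.Obj) (f : W ⟶ X) (u : C.A W), C.Deg (W.dim - X.dim) u ∧ C.down f u = 1 ∧
      SelfChain A W n i (C.pull f z) := by
  induction h with
  | base X j z hz =>
    refine ⟨X, 𝟙 X, 1, ?_, C.push_id 1, ?_⟩
    · rw [sub_self]; exact C.one_mem X
    · rw [C.pull_id]; exact SelfChain.base j z hz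
  | step r Z X j i z Γ hz hΓ hk ih =>
    obtain ⟨W, f, u, hu, hu1, hs⟩ := ih
    obtain ⟨a, ha, ha1, -⟩ := exists_deg_one C X
    obtain ⟨b, hb, -, hb1⟩ := exists_deg_one C W
    have hv : C.Deg ((W.prod X).dim - W.dim) (C.pull (snd W X) a) := by
      rw [show (((W.prod X).dim : ℤ) - W.dim) = X.dim by rw [dim_prod]; push_cast; ring]
      exact C.pull_mem _ ha
    have hs' := hs.lift (f := fst W X) hv (ha1 W)
    refine ⟨W.prod X, snd W X, C.pull (fst W X) b, ?_, hb1 X, ?_⟩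
    · rw [show (((W.prod X).dim : ℤ) - X.dim) = W.dim by rw [dim_prod]; push_cast; ring]
      exact C.pull_mem _ hb
    obtain ⟨Γ', hΓ', h1, h2⟩ := (((((Realised.mul (H := H) hv).comp
      (Realised.push (fst W X))).comp (Realised.mul (H := H) hu)).comp (Realised.push f)).comp
      (Realised.of (H := H) (shifts_iff.1 hΓ))).comp (Realised.pull (snd W X))
    have e1 : C.act Γ' (C.pull (fst W X) (C.pull f z)) = C.pull (snd W X) (C.act Γ z) := by
      rw [h1]
      beta_reduce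
      have e3 : C.push (fst W X) (C.pull (snd W X) a * C.pull (fst W X) (C.pull f z)) =
          C.pull f z := by
        rw [C.proj_right, ha1 W, one_mul]
      rw [e3, C.proj_right]
      change C.pull _ (C.act Γ (C.down f u * z)) = _
      rw [hu1, one_mul]
    rw [← e1]
    refine SelfChain.step r j i _ Γ' hs' ?_ ?_
    · rw [shifts_iff]
      have e2 : (((W.prod X).dim : ℤ) - W.dim + ((W.dim : ℤ) - (W.prod X).dim) +
        ((W.dim : ℤ) - Z.dim) + ((Z.dim : ℤ) - W.dim) + ((i : ℤ) - j) + 0) = (i : ℤ) - j := by ring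
      rwa [e2] at hΓ'
    · intro c hc
      rw [h2]
      beta_reduce
      rw [hk, map_zero]
      have h3 := H.push_mem f (H.mul_mem (H.cl_mem hu) (H.push_mem (fst W X)
        (H.mul_mem (H.cl_mem hv) hc)))
      rwa [show (2 * ((W.dim : ℤ) - Z.dim) + (2 * (((W.prod X).dim : ℤ) - W.dim) +
        (2 * (j : ℤ) - r) + 2 * ((W.dim : ℤ) - (W.prod X).dim)) + 2 * ((Z.dim : ℤ) - W.dim)) =
        2 * j - r by ring] at h3

/-- a dominating map detects classes -/
lemma eq_zero_of_pull {f : W ⟶ X} {u : C.A W} (hu1 : C.down f u = 1) {z : C.A X}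
    (h : C.pull f z = 0) : z = 0 := by
  have h1 := C.proj_right f u z
  rw [h, mul_zero, map_zero] at h1
  change 0 = C.down f u * z at h1
  rw [hu1, one_mul] at h1
  exact h1.symm

variable (A) in
lemma allVanish_of (S : Set 𝒱.Obj) (hS : ∀ X, ∃ Y ∈ S, Dominates C Y X)
    (h : ∀ Y ∈ S, ChainsVanish A Y) : AllVanish A := by
  intro X i z hz
  obtain ⟨W, f, u, hu, hu1, hs⟩ := hz.embed
  obtain ⟨Y, hY, g, t, ht, ht1⟩ := hS W
  have h1 := h Y hY i _ (hs.lift ht ht1)
  exact eq_zero_of_pull hu1 (eq_zero_of_pull ht1 h1)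

end chains

end Pool.Agent.U644.BBL
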